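import Pool.Agent.X297.LS.Assembly

/-!
# MP_942486_an, Q1: a disproof

There is a bounded sequence of measurable functions `f_n` on the real line, `f_n` having the
period `1 / n`, with values in `{0, 1}`, whose upper limit is `0` at almost every point of
`[1/64, 1/32)` and `1` at almost every point of `[2/5 + 1/64, 3/5]`.
-/

open MeasureTheory Filter

namespace Pool.Agent.Results.MP_942486_an.LimsupNotConstant

/-- The admissible sequences of the problem: the functions are measurable and uniformly bounded,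
and `f_n` has the period `1 / n` for every `n ≥ 1`. (The index `0` plays no role.) -/
structure Admissible (f : ℕ → ℝ → ℝ) : Prop where
  measurable : ∀ n, Measurable (f n)
  bounded : ∃ M : ℝ, ∀ n x, |f n x| ≤ M
  periodic : ∀ n : ℕ, 1 ≤ n → ∀ x : ℝ, f n (x + 1 / n) = f n x

/-- Being equal to a constant almost everywhere. -/
def AEConstant (g : ℝ → ℝ) : Prop := ∃ c : ℝ, ∀ᵐ x, g x = c

theorem result :
    (∃ f : ℕ → ℝ → ℝ, Admissible f ∧ (∀ n x, f n x = 0 ∨ f n x = 1) ∧
      (∀ᵐ x, x ∈ Set.Ico (1 / 64 : ℝ) (1 / 32) → limsup (fun n => f n x) atTop = 0) ∧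
      (∀ᵐ x, x ∈ Set.Icc (2 / 5 + 1 / 64 : ℝ) (3 / 5) → limsup (fun n => f n x) atTop = 1) ∧
      ¬ AEConstant fun x => limsup (fun n => f n x) atTop) ∧
    (∃ f : ℕ → ℝ → ℝ, Admissible f ∧ (∀ n x, f n x = 0 ∨ f n x = -1) ∧
      (∀ᵐ x, x ∈ Set.Ico (1 / 64 : ℝ) (1 / 32) → liminf (fun n => f n x) atTop = 0) ∧
      (∀ᵐ x, x ∈ Set.Icc (2 / 5 + 1 / 64 : ℝ) (3 / 5) → liminf (fun n => f n x) atTop = -1) ∧
      ¬ AEConstant fun x => liminf (fun n => f n x) atTop) := by
  obtain ⟨F, hF1, hF2, hF3, hF4⟩ := Pool.Agent.X297.LS.assembly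
  constructor
  · refine ⟨fun n => (F n).indicator fun _ => 1, ⟨fun n => measurable_const.indicator (hF1 n),
      ⟨1, fun n x => ?_⟩, fun n _ x => ?_⟩, fun n x => ?_, ?_⟩
    · by_cases h : x ∈ F n <;> simp [h]
    · by_cases h : x ∈ F n
      · rw [Set.indicator_of_mem h, Set.indicator_of_mem ((hF2 n x).2 h)]
      · rw [Set.indicator_of_notMem h, Set.indicator_of_notMem (fun h' => h ((hF2 n x).1 h'))]
    · by_cases h : x ∈ F n <;> simp [h]
    · have h1 : ∀ᵐ x, x ∈ Set.Ico (1 / 64 : ℝ) (1 / 32) →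
          limsup (fun n => (F n).indicator (fun _ => (1 : ℝ)) x) atTop = 0 := by
        filter_upwards [hF3] with x hx hxJ
        refine Tendsto.limsup_eq (tendsto_const_nhds.congr' ?_)
        filter_upwards [hx hxJ] with n hn
        rw [Set.indicator_of_notMem hn]
      have h2 : ∀ᵐ x, x ∈ Set.Icc (2 / 5 + 1 / 64 : ℝ) (3 / 5) →
          limsup (fun n => (F n).indicator (fun _ => (1 : ℝ)) x) atTop = 1 := by
        filter_upwards [hF4] with x hx hxB
        have h3 : ∀ n, (F n).indicator (fun _ => (1 : ℝ)) x ≤ 1 := fun n => by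
          by_cases h : x ∈ F n <;> simp [h]
        have h4 : ∀ n, 0 ≤ (F n).indicator (fun _ => (1 : ℝ)) x := fun n => by
          by_cases h : x ∈ F n <;> simp [h]
        refine le_antisymm (limsup_le_of_le (isCoboundedUnder_le_of_le atTop (x := 0) h4)
          (Eventually.of_forall h3)) (le_limsup_of_frequently_le ((hx hxB).mono fun n hn => ?_)
          (isBoundedUnder_of ⟨1, h3⟩))
        rw [Set.indicator_of_mem hn]
      refine ⟨h1, h2, ?_⟩
      rintro ⟨c, hc⟩
      obtain ⟨x, hx1, hx2⟩ := Pool.Agent.X297.LS.exists_of_ae Pool.Agent.X297.LS.vol_J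
        (p := fun x => limsup (fun n => (F n).indicator (fun _ => (1 : ℝ)) x) atTop = 0 ∧
          limsup (fun n => (F n).indicator (fun _ => (1 : ℝ)) x) atTop = c) (by
          filter_upwards [h1, hc] with x hx1 hx2 hx
          exact ⟨hx1 hx, hx2⟩)
      obtain ⟨y, hy1, hy2⟩ := Pool.Agent.X297.LS.exists_of_ae Pool.Agent.X297.LS.vol_B
        (p := fun x => limsup (fun n => (F n).indicator (fun _ => (1 : ℝ)) x) atTop = 1 ∧
          limsup (fun n => (F n).indicator (fun _ => (1 : ℝ)) x) atTop = c) (by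
          filter_upwards [h2, hc] with x hx1 hx2 hx
          exact ⟨hx1 hx, hx2⟩)
      exact zero_ne_one ((hx1.symm.trans hx2).trans (hy2.symm.trans hy1))
  · refine ⟨fun n => (F n).indicator fun _ => -1, ⟨fun n => measurable_const.indicator (hF1 n),
      ⟨1, fun n x => ?_⟩, fun n _ x => ?_⟩, fun n x => ?_, ?_⟩
    · by_cases h : x ∈ F n <;> simp [h]
    · by_cases h : x ∈ F n
      · rw [Set.indicator_of_mem h, Set.indicator_of_mem ((hF2 n x).2 h)]
      · rw [Set.indicator_of_notMem h, Set.indicator_of_notMem (fun h' => h ((hF2 n x).1 h'))]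
    · by_cases h : x ∈ F n <;> simp [h]
    · have h1 : ∀ᵐ x, x ∈ Set.Ico (1 / 64 : ℝ) (1 / 32) →
          liminf (fun n => (F n).indicator (fun _ => (-1 : ℝ)) x) atTop = 0 := by
        filter_upwards [hF3] with x hx hxJ
        refine Tendsto.liminf_eq (tendsto_const_nhds.congr' ?_)
        filter_upwards [hx hxJ] with n hn
        rw [Set.indicator_of_notMem hn]
      have h2 : ∀ᵐ x, x ∈ Set.Icc (2 / 5 + 1 / 64 : ℝ) (3 / 5) →
          liminf (fun n => (F n).indicator (fun _ => (-1 : ℝ)) x) atTop = -1 := by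
        filter_upwards [hF4] with x hx hxB
        have h3 : ∀ n, -1 ≤ (F n).indicator (fun _ => (-1 : ℝ)) x := fun n => by
          by_cases h : x ∈ F n <;> simp [h]
        have h4 : ∀ n, (F n).indicator (fun _ => (-1 : ℝ)) x ≤ 0 := fun n => by
          by_cases h : x ∈ F n <;> simp [h]
        refine le_antisymm (liminf_le_of_frequently_le ((hx hxB).mono fun n hn => ?_)
          (isBoundedUnder_of ⟨-1, h3⟩)) (le_liminf_of_le
          (isCoboundedUnder_ge_of_le atTop (x := 0) h4) (Eventually.of_forall h3))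
        rw [Set.indicator_of_mem hn]
      refine ⟨h1, h2, ?_⟩
      rintro ⟨c, hc⟩
      obtain ⟨x, hx1, hx2⟩ := Pool.Agent.X297.LS.exists_of_ae Pool.Agent.X297.LS.vol_J
        (p := fun x => liminf (fun n => (F n).indicator (fun _ => (-1 : ℝ)) x) atTop = 0 ∧
          liminf (fun n => (F n).indicator (fun _ => (-1 : ℝ)) x) atTop = c) (by
          filter_upwards [h1, hc] with x hx1 hx2 hx
          exact ⟨hx1 hx, hx2⟩)
      obtain ⟨y, hy1, hy2⟩ := Pool.Agent.X297.LS.exists_of_ae Pool.Agent.X297.LS.vol_B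
        (p := fun x => liminf (fun n => (F n).indicator (fun _ => (-1 : ℝ)) x) atTop = -1 ∧
          liminf (fun n => (F n).indicator (fun _ => (-1 : ℝ)) x) atTop = c) (by
          filter_upwards [h2, hc] with x hx1 hx2 hx
          exact ⟨hx1 hx, hx2⟩)
      have h3 : (0 : ℝ) = -1 := (hx1.symm.trans hx2).trans (hy2.symm.trans hy1)
      norm_num at h3

end Pool.Agent.Results.MP_942486_an.LimsupNotConstant
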